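import Pool.Agent.LPC.Stmts

/-!
# Squad LPC (MP_37fa12_co), row FIN0: finitely many points of `L` in every ball
-/

set_option autoImplicit false

noncomputable section

open MeasureTheory Filter Topology

namespace Pool.Agent.LPC.H89

open Pool.Agent.LPC

theorem fin0 : Fin0Stmt := by
  intro n s L hs hL R
  have hpos : 0 < Real.sqrt s / 2 := by positivity
  have htb : TotallyBounded (Metric.ball (0 : V n) R) :=
    (isCompact_closedBall (0 : V n) R).totallyBounded.subset Metric.ball_subset_closedBall
  obtain ⟨t, ht, hcov⟩ := Metric.totallyBounded_iff.1 htb _ hpos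
  have hch : ∀ v ∈ {v : V n | v ∈ L ∧ v ∈ Metric.ball (0 : V n) R},
      ∃ y ∈ t, v ∈ Metric.ball y (Real.sqrt s / 2) := by
    intro v hv
    have := hcov hv.2
    simpa only [Set.mem_iUnion, exists_prop] using this
  classical
  let g : V n → V n := fun v => if h : v ∈ {v : V n | v ∈ L ∧ v ∈ Metric.ball (0 : V n) R} then
    (hch v h).choose else 0
  have hg : ∀ v ∈ {v : V n | v ∈ L ∧ v ∈ Metric.ball (0 : V n) R},
      g v ∈ t ∧ v ∈ Metric.ball (g v) (Real.sqrt s / 2) := by
    intro v hv
    have e : g v = (hch v hv).choose := dif_pos hv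
    rw [e]
    exact (hch v hv).choose_spec
  have hinj : Set.InjOn g {v : V n | v ∈ L ∧ v ∈ Metric.ball (0 : V n) R} := by
    intro v hv w hw hvw
    by_contra hne
    have h1 := (hg v hv).2
    have h2 := (hg w hw).2
    rw [← hvw] at h2
    have h3 : dist v w < Real.sqrt s := by
      have h4 := dist_triangle_right v w (g v)
      rw [Metric.mem_ball] at h1 h2
      linarith
    have h5 := hL (v - w) (L.sub_mem hv.1 hw.1) (sub_ne_zero.2 hne)
    rw [dist_eq_norm] at h3
    have h6 : ‖v - w‖ ^ 2 < Real.sqrt s ^ 2 := by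
      exact pow_lt_pow_left₀ h3 (norm_nonneg _) (by norm_num)
    rw [Real.sq_sqrt hs.le] at h6
    linarith
  refine Set.Finite.of_finite_image (ht.subset ?_) hinj
  rintro _ ⟨v, hv, rfl⟩
  exact (hg v hv).1

end Pool.Agent.LPC.H89
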